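import Mathlib
import Pool.Agent.Helper34.PM.Defs

/-!
# Zero estimate (block Z)
-/

namespace Pool.Agent.Helper79.PM

open Polynomial Finset Pool.Agent.PM

lemma Dl_zero (l : ℂ) (g : ℂ[X]) : Dl l 0 g = g := rfl

lemma Dl_succ (l : ℂ) (t : ℕ) (g : ℂ[X]) : Dl l (t + 1) g = derivative (Dl l t g) + C l * Dl l t g := by
  unfold Dl
  rw [Function.iterate_succ_apply']

/-- `Dl` as a sum. -/
theorem Dl_eq (l : ℂ) (t : ℕ) (g : ℂ[X]) :
    Dl l t g = ∑ j ∈ range (t + 1), C ((t.choose j : ℂ) * l ^ (t - j)) * derivative^[j] g := by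
  let A : Module.End ℂ ℂ[X] := Polynomial.derivative
  let B : Module.End ℂ ℂ[X] := l • (1 : Module.End ℂ ℂ[X])
  have hAB : Commute A B := (Commute.one_right A).smul_right l
  have h1 : ∀ t, Dl l t g = ((A + B) ^ t) g := by
    intro t
    induction t with
    | zero => rfl
    | succ t ih =>
      rw [Dl_succ, ih, pow_succ', Module.End.mul_apply, LinearMap.add_apply]
      congr 1
      change C l * _ = l • _
      rw [Polynomial.smul_eq_C_mul]
      rfl
  rw [h1, hAB.add_pow, LinearMap.sum_apply]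
  refine Finset.sum_congr rfl fun j hj => ?_
  have h2 : B ^ (t - j) = (l ^ (t - j)) • (1 : Module.End ℂ ℂ[X]) := by
    change (l • (1 : Module.End ℂ ℂ[X])) ^ (t - j) = _
    rw [_root_.smul_pow, one_pow]
  rw [h2, mul_smul_comm, mul_one, smul_mul_assoc, LinearMap.smul_apply, ← Nat.cast_comm,
    Module.End.mul_apply]
  have h3 : ∀ n, (A ^ n) g = derivative^[n] g := by
    intro n
    rw [Module.End.pow_apply]
  have h4 : ((t.choose j : ℕ) : Module.End ℂ ℂ[X]) ((A ^ j) g) = (t.choose j : ℂ) • ((A ^ j) g) := by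
    rw [Nat.cast_smul_eq_nsmul ℂ]
    rfl
  rw [h4, h3, smul_smul, Polynomial.smul_eq_C_mul, mul_comm (l ^ (t - j))]

theorem Dl_eval (l x : ℂ) (t a : ℕ) (c : ℂ) :
    (Dl l t (C c * X ^ a)).eval x = c * ∑ j ∈ range (t + 1),
      (t.choose j : ℂ) * (a.descFactorial j : ℂ) * x ^ (a - j) * l ^ (t - j) := by
  rw [Dl_eq, Polynomial.eval_finsetSum, Finset.mul_sum]
  refine Finset.sum_congr rfl fun j _ => ?_
  rw [Polynomial.iterate_derivative_C_mul, Polynomial.iterate_derivative_X_pow_eq_natCast_mul]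
  simp only [eval_mul, eval_C, eval_natCast, eval_pow, eval_X]
  ring

/-! ### degree and leading coefficient -/

lemma natDegree_Dl_le (l : ℂ) (t : ℕ) (g : ℂ[X]) : (Dl l t g).natDegree ≤ g.natDegree := by
  induction t with
  | zero => rw [Dl_zero]
  | succ t ih =>
    rw [Dl_succ]
    refine (natDegree_add_le _ _).trans (max_le ?_ ?_)
    · exact (natDegree_derivative_le _).trans ((Nat.sub_le _ _).trans ih)
    · exact (natDegree_C_mul_le _ _).trans ih

lemma coeff_Dl (l : ℂ) (t : ℕ) (g : ℂ[X]) : (Dl l t g).coeff g.natDegree = l ^ t * g.leadingCoeff := by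
  induction t with
  | zero => rw [Dl_zero, pow_zero, one_mul]; rfl
  | succ t ih =>
    rw [Dl_succ, coeff_add, coeff_C_mul, ih, coeff_derivative]
    have h : (Dl l t g).coeff (g.natDegree + 1) = 0 :=
      coeff_eq_zero_of_natDegree_lt (Nat.lt_succ_of_le (natDegree_Dl_le l t g))
    rw [h, zero_mul, zero_add, pow_succ']
    ring

lemma prod_natDegree_le {ι : Type*} (s : Finset ι) (f : ι → ℂ[X]) (d : ι → ℕ) (h : ∀ i ∈ s, (f i).natDegree ≤ d i) :
    (∏ i ∈ s, f i).natDegree ≤ ∑ i ∈ s, d i :=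
  (natDegree_prod_le _ _).trans (Finset.sum_le_sum h)

lemma coeff_prod {ι : Type*} (s : Finset ι) (f : ι → ℂ[X]) (d : ι → ℕ) (h : ∀ i ∈ s, (f i).natDegree ≤ d i) :
    (∏ i ∈ s, f i).coeff (∑ i ∈ s, d i) = ∏ i ∈ s, (f i).coeff (d i) := by
  classical
  induction s using Finset.induction_on with
  | empty => simp
  | insert a s ha ih =>
    rw [Finset.prod_insert ha, Finset.sum_insert ha, Finset.prod_insert ha,
      coeff_mul_add_eq_of_natDegree_le (h a (Finset.mem_insert_self _ _))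
        (prod_natDegree_le s f d fun i hi => h i (Finset.mem_insert_of_mem hi)),
      ih fun i hi => h i (Finset.mem_insert_of_mem hi)]

/-- The determinant. -/
noncomputable def Det {m : ℕ} (L : Fin m → ℂ) (G : Fin m → ℂ[X]) : ℂ[X] :=
  (Matrix.of fun k i : Fin m => Dl (L i) k (G i)).det

lemma Det_natDegree {m : ℕ} (L : Fin m → ℂ) (G : Fin m → ℂ[X]) : (Det L G).natDegree ≤ ∑ i, (G i).natDegree := by
  unfold Det
  rw [Matrix.det_apply]
  refine natDegree_sum_le_of_forall_le _ _ fun σ _ => ?_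
  refine (natDegree_smul_le _ _).trans ?_
  exact prod_natDegree_le _ _ _ fun i _ => natDegree_Dl_le _ _ _

lemma Det_coeff {m : ℕ} (L : Fin m → ℂ) (G : Fin m → ℂ[X]) :
    (Det L G).coeff (∑ i, (G i).natDegree) = (∏ i, (G i).leadingCoeff) * (Matrix.vandermonde L).det := by
  unfold Det
  rw [Matrix.det_apply]
  simp only [Matrix.of_apply]
  rw [finsetSum_coeff, ← Matrix.det_transpose (Matrix.vandermonde L), Matrix.det_apply,
    Finset.mul_sum]
  refine Finset.sum_congr rfl fun σ _ => ?_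
  rw [coeff_smul, coeff_prod _ _ _ fun i _ => natDegree_Dl_le _ _ _, mul_smul_comm, ← Finset.prod_mul_distrib]
  congr 1
  refine Finset.prod_congr rfl fun i _ => ?_
  rw [coeff_Dl, Matrix.transpose_apply, Matrix.vandermonde_apply, mul_comm]

lemma Det_ne_zero {m : ℕ} (L : Fin m → ℂ) (hL : Function.Injective L) (G : Fin m → ℂ[X]) (hG : ∀ i, G i ≠ 0) :
    Det L G ≠ 0 := by
  intro h
  have h1 := Det_coeff L G
  rw [h, coeff_zero] at h1
  exact mul_ne_zero (Finset.prod_ne_zero_iff.mpr fun i _ => leadingCoeff_ne_zero.mpr (hG i))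
    (Matrix.det_vandermonde_ne_zero_iff.mpr hL) h1.symm

/-! ### power series -/

/-- The expansion at `x`. -/
noncomputable def tau (x : ℂ) : ℂ[X] →+* PowerSeries ℂ :=
  (Polynomial.coeToPowerSeries.ringHom).comp (Polynomial.compRingHom (X + C x))

lemma tau_apply (x : ℂ) (g : ℂ[X]) : tau x g = ((g.comp (X + C x) : ℂ[X]) : PowerSeries ℂ) := rfl

lemma tau_C (x c : ℂ) : tau x (C c) = PowerSeries.C c := by
  rw [tau_apply, C_comp, Polynomial.coe_C]

lemma constantCoeff_tau (x : ℂ) (g : ℂ[X]) : PowerSeries.constantCoeff (tau x g) = g.eval x := by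
  rw [tau_apply, Polynomial.constantCoeff_coe, coeff_zero_eq_eval_zero, eval_comp]
  simp

lemma deriv_tau (x : ℂ) (g : ℂ[X]) :
    PowerSeries.derivative ℂ (tau x g) = tau x (derivative g) := by
  rw [tau_apply, tau_apply, PowerSeries.derivative_coe, derivative_comp]
  simp

/-- The exponential series. -/
noncomputable def ex (l : ℂ) : PowerSeries ℂ := PowerSeries.rescale l (PowerSeries.exp ℂ)

lemma deriv_ex (l : ℂ) : PowerSeries.derivative ℂ (ex l) = PowerSeries.C l * ex l := by
  ext n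
  rw [PowerSeries.coeff_derivative, PowerSeries.coeff_C_mul, ex, PowerSeries.coeff_rescale, PowerSeries.coeff_rescale,
    PowerSeries.coeff_exp, PowerSeries.coeff_exp]
  simp only [map_div₀, map_one, map_natCast, Nat.factorial_succ, Nat.cast_mul, Nat.cast_succ]
  have h1 : (n.factorial : ℂ) ≠ 0 := Nat.cast_ne_zero.mpr n.factorial_ne_zero
  have h2 : (n : ℂ) + 1 ≠ 0 := Nat.cast_add_one_ne_zero n
  field_simp
  rw [map_mul, map_add, map_natCast, map_natCast, map_one]
  ring

lemma constantCoeff_ex (l : ℂ) : PowerSeries.constantCoeff (ex l) = 1 := by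
  rw [← PowerSeries.coeff_zero_eq_constantCoeff_apply, ex, PowerSeries.coeff_rescale, PowerSeries.coeff_exp]
  simp

lemma iter_deriv {m : ℕ} (L : Fin m → ℂ) (G : Fin m → ℂ[X]) (x : ℂ) (k : ℕ) :
    (PowerSeries.derivative ℂ)^[k] (∑ i, tau x (G i) * ex (L i)) = ∑ i, tau x (Dl (L i) k (G i)) * ex (L i) := by
  induction k with
  | zero => rfl
  | succ k ih =>
    rw [Function.iterate_succ_apply', ih, map_sum]
    refine Finset.sum_congr rfl fun i _ => ?_
    rw [Derivation.leibniz, deriv_tau, deriv_ex, Dl_succ, map_add, map_mul, tau_C, smul_eq_mul, smul_eq_mul]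
    ring

lemma constantCoeff_iter (f : PowerSeries ℂ) (j : ℕ) :
    PowerSeries.constantCoeff ((PowerSeries.derivative ℂ)^[j] f) = (j.factorial : ℂ) * PowerSeries.coeff j f := by
  have key : ∀ n, PowerSeries.coeff n ((PowerSeries.derivative ℂ)^[j] f) =
      ((n + j).descFactorial j : ℂ) * PowerSeries.coeff (n + j) f := by
    induction j with
    | zero => intro n; simp
    | succ j ih =>
      intro n
      rw [Function.iterate_succ_apply', PowerSeries.coeff_derivative, ih (n + 1),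
        show n + 1 + j = n + (j + 1) by ring]
      have h : ((n + (j + 1)).descFactorial (j + 1) : ℂ) = ((n + 1 : ℕ) : ℂ) * ((n + (j + 1)).descFactorial j : ℂ) := by
        rw [Nat.descFactorial_succ, show n + (j + 1) - j = n + 1 by omega, Nat.cast_mul]
      rw [h]
      push_cast
      ring
  have h := key 0
  rw [PowerSeries.coeff_zero_eq_constantCoeff_apply, zero_add, Nat.descFactorial_self] at h
  exact h

lemma X_pow_dvd_of (f : PowerSeries ℂ) (n : ℕ)
    (h : ∀ j < n, PowerSeries.constantCoeff ((PowerSeries.derivative ℂ)^[j] f) = 0) : PowerSeries.X ^ n ∣ f := by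
  rw [PowerSeries.X_pow_dvd_iff]
  intro j hj
  have h1 := h j hj
  rw [constantCoeff_iter] at h1
  exact (mul_eq_zero.mp h1).resolve_left (Nat.cast_ne_zero.mpr j.factorial_ne_zero)

/-- The determinant vanishes at `x`. -/
lemma Det_dvd {m : ℕ} (hm : 0 < m) (L : Fin m → ℂ) (G : Fin m → ℂ[X]) (T : ℕ) (x : ℂ)
    (hv : ∀ t < T, ∑ i, (Dl (L i) t (G i)).eval x = 0) : (X - C x) ^ (T + 1 - m) ∣ Det L G := by
  set f : PowerSeries ℂ := ∑ i, tau x (G i) * ex (L i) with hf
  have hcc : ∀ t < T, PowerSeries.constantCoeff ((PowerSeries.derivative ℂ)^[t] f) = 0 := by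
    intro t ht
    rw [hf, iter_deriv, map_sum, ← hv t ht]
    refine Finset.sum_congr rfl fun i _ => ?_
    rw [map_mul, constantCoeff_tau, constantCoeff_ex, mul_one]
  have hdv : ∀ k : Fin m, PowerSeries.X ^ (T + 1 - m) ∣ (PowerSeries.derivative ℂ)^[(k : ℕ)] f := by
    intro k
    apply X_pow_dvd_of
    intro j hj
    rw [← Function.iterate_add_apply]
    apply hcc
    have := k.2
    omega
  set B : Matrix (Fin m) (Fin m) (PowerSeries ℂ) := (tau x).mapMatrix (Matrix.of fun k i : Fin m => Dl (L i) k (G i))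
    with hB
  have hBe : ∀ k, (B.mulVec fun i => ex (L i)) k = (PowerSeries.derivative ℂ)^[(k : ℕ)] f := by
    intro k
    rw [hf, iter_deriv]
    rfl
  have hdet : B.det = tau x (Det L G) := by
    rw [hB, ← RingHom.map_det]
    rfl
  have hcr : ∀ i, B.det * ex (L i) = ∑ k, B.adjugate i k * (PowerSeries.derivative ℂ)^[(k : ℕ)] f := by
    intro i
    have h1 : B.adjugate.mulVec (B.mulVec fun i => ex (L i)) = B.det • fun i => ex (L i) := by
      rw [Matrix.mulVec_mulVec, Matrix.adjugate_mul, Matrix.smul_mulVec, Matrix.one_mulVec]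
    have h2 := congrFun h1 i
    rw [Pi.smul_apply, smul_eq_mul] at h2
    rw [← h2]
    simp only [Matrix.mulVec, dotProduct]
    refine Finset.sum_congr rfl fun k _ => ?_
    rw [← hBe k]
    rfl
  have hd2 : PowerSeries.X ^ (T + 1 - m) ∣ B.det := by
    have h1 : PowerSeries.X ^ (T + 1 - m) ∣ B.det * ex (L ⟨0, hm⟩) := by
      rw [hcr]
      exact Finset.dvd_sum fun k _ => Dvd.dvd.mul_left (hdv k) _
    have h2 : IsUnit (ex (L ⟨0, hm⟩)) := by
      rw [PowerSeries.isUnit_iff_constantCoeff, constantCoeff_ex]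
      exact isUnit_one
    exact (h2.dvd_mul_right).mp h1
  rw [hdet, tau_apply] at hd2
  have h3 : X ^ (T + 1 - m) ∣ (Det L G).comp (X + C x) := by
    rw [Polynomial.X_pow_dvd_iff]
    intro d hd
    have h4 := PowerSeries.X_pow_dvd_iff.mp hd2 d hd
    rwa [Polynomial.coeff_coe] at h4
  obtain ⟨q, hq⟩ := h3
  refine ⟨q.comp (X - C x), ?_⟩
  have h5 := congrArg (fun r : ℂ[X] => r.comp (X - C x)) hq
  beta_reduce at h5
  rw [comp_assoc, mul_comp, pow_comp, X_comp] at h5
  have h6 : (X + C x : ℂ[X]).comp (X - C x) = X := by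
    simp
  rw [h6, comp_X] at h5
  exact h5

/-- The estimate for nonzero polynomials. -/
theorem core {m : ℕ} (hm : 0 < m) (L : Fin m → ℂ) (hL : Function.Injective L) (G : Fin m → ℂ[X]) (hG : ∀ i, G i ≠ 0)
    (S T : ℕ) (x : ℕ → ℂ) (hx : Set.InjOn x (Set.Iio S))
    (hv : ∀ s < S, ∀ t < T, ∑ i, (Dl (L i) t (G i)).eval (x s) = 0) :
    S * (T + 1 - m) ≤ ∑ i, (G i).natDegree := by
  classical
  have h1 : ∏ s ∈ range S, (X - C (x s)) ^ (T + 1 - m) ∣ Det L G := by
    refine Finset.prod_dvd_of_coprime ?_ fun s hs => Det_dvd hm L G T (x s) (hv s (Finset.mem_range.mp hs))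
    intro s hs s' hs' hne
    apply IsCoprime.pow
    refine isCoprime_X_sub_C_of_isUnit_sub (sub_ne_zero.mpr fun h => hne ?_).isUnit
    exact hx (Finset.mem_range.mp hs) (Finset.mem_range.mp hs') h
  have h2 := natDegree_le_of_dvd h1 (Det_ne_zero L hL G hG)
  rw [natDegree_prod _ _ fun s _ => pow_ne_zero _ (X_sub_C_ne_zero _)] at h2
  simp only [natDegree_pow, natDegree_X_sub_C, mul_one, Finset.sum_const, Finset.card_range, smul_eq_mul] at h2
  exact h2.trans (Det_natDegree L G)

theorem zero_est {ι : Type*} [DecidableEq ι] (I : Finset ι) (l : ι → ℂ)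
    (hl : Set.InjOn l I) (g : ι → ℂ[X]) (M : ℕ) (hg : ∀ i ∈ I, (g i).natDegree < M)
    (S T : ℕ) (x : ℕ → ℂ) (hx : Set.InjOn x (Set.Iio S))
    (hv : ∀ s < S, ∀ t < T, ∑ i ∈ I, (Dl (l i) t (g i)).eval (x s) = 0)
    (hST : I.card * M < S * (T + 1 - I.card)) : ∀ i ∈ I, g i = 0 := by
  classical
  by_contra hcon
  push Not at hcon
  obtain ⟨i0, hi0, hi0'⟩ := hcon
  set J := I.filter fun i => g i ≠ 0 with hJ
  have hJI : J ⊆ I := Finset.filter_subset _ _
  have hm : 0 < J.card := Finset.card_pos.mpr ⟨i0, Finset.mem_filter.mpr ⟨hi0, hi0'⟩⟩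
  let e : Fin J.card ≃ J := J.equivFin.symm
  have h0 : ∀ i ∈ I, i ∉ J → ∀ t s, (Dl (l i) t (g i)).eval (x s) = 0 := by
    intro i hi hiJ t s
    have h1 : g i = 0 := by
      by_contra h
      exact hiJ (Finset.mem_filter.mpr ⟨hi, h⟩)
    have h2 : Dl (l i) t (g i) = 0 := by
      rw [h1]
      induction t with
      | zero => rfl
      | succ t ih => rw [Dl_succ, ih, derivative_zero, mul_zero, add_zero]
    rw [h2, eval_zero]
  have h1 := core hm (fun a => l (e a)) (by
      intro a b hab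
      have h2 := hl (hJI (e a).2) (hJI (e b).2) hab
      exact e.injective (Subtype.ext h2)) (fun a => g (e a))
    (fun a => (Finset.mem_filter.mp (e a).2).2) S T x hx (by
      intro s hs t ht
      rw [← hv s hs t ht, ← Finset.sum_subset hJI fun i hi hiJ => h0 i hi hiJ t s]
      rw [← Finset.sum_coe_sort J, ← Equiv.sum_comp e])
  have h2 : ∑ a : Fin J.card, (g (e a)).natDegree ≤ J.card * M := by
    have h3 : ∑ a : Fin J.card, (g (e a)).natDegree ≤ ∑ _a : Fin J.card, M :=
      Finset.sum_le_sum fun a _ => (hg _ (hJI (e a).2)).le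
    rwa [Finset.sum_const, Finset.card_univ, Fintype.card_fin, smul_eq_mul] at h3
  have h4 : J.card ≤ I.card := Finset.card_le_card hJI
  have h5 : S * (T + 1 - I.card) ≤ S * (T + 1 - J.card) := Nat.mul_le_mul_left _ (by omega)
  have h6 : J.card * M ≤ I.card * M := Nat.mul_le_mul_right _ h4
  omega

end Pool.Agent.Helper79.PM
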