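import Mathlib
import Pool.Agent.Helper34.PM.Defs
import Pool.Agent.Helper79.PM.Zero

/-!
# The values of the polynomials `Q` (block Q, `Q_eval`)
-/

namespace Pool.Agent.Helper79.PM

open Polynomial Finset Pool.Agent.PM

lemma Dl_add (l : ℂ) (t : ℕ) (g h : ℂ[X]) : Dl l t (g + h) = Dl l t g + Dl l t h := by
  induction t with
  | zero => rfl
  | succ t ih =>
    rw [Dl_succ, Dl_succ, Dl_succ, ih, derivative_add, mul_add]
    ring

lemma Dl_zero_poly (l : ℂ) (t : ℕ) : Dl l t 0 = 0 := by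
  induction t with
  | zero => rfl
  | succ t ih => rw [Dl_succ, ih, derivative_zero, mul_zero, add_zero]

lemma Dl_sum {ι : Type*} (l : ℂ) (t : ℕ) (s : Finset ι) (g : ι → ℂ[X]) :
    Dl l t (∑ i ∈ s, g i) = ∑ i ∈ s, Dl l t (g i) := by
  classical
  induction s using Finset.induction_on with
  | empty => rw [Finset.sum_empty, Finset.sum_empty, Dl_zero_poly]
  | insert a s ha ih => rw [Finset.sum_insert ha, Finset.sum_insert ha, Dl_add, ih]

lemma I_pow_add (n : ℕ) : Complex.I ^ n + (-Complex.I) ^ n = 2 * (cc n : ℂ) := by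
  have hn : n = n % 4 + 4 * (n / 4) := (Nat.mod_add_div n 4).symm
  have h1 : Complex.I ^ n = Complex.I ^ (n % 4) := by
    conv_lhs => rw [hn, pow_add, pow_mul, Complex.I_pow_four, one_pow, mul_one]
  have h2 : (-Complex.I) ^ n = (-Complex.I) ^ (n % 4) := by
    have h4 : (-Complex.I) ^ 4 = 1 := by rw [neg_pow, Complex.I_pow_four]; norm_num
    conv_lhs => rw [hn, pow_add, pow_mul, h4, one_pow, mul_one]
  rw [h1, h2]
  have h3 : n % 4 < 4 := Nat.mod_lt _ (by norm_num)
  unfold cc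
  interval_cases h : n % 4
  · norm_num
  · norm_num
  · have : (-Complex.I) ^ 2 = -1 := by rw [neg_pow, Complex.I_sq]; norm_num
    rw [Complex.I_sq, this]
    norm_num
  · have h5 : Complex.I ^ 3 = -Complex.I := Complex.I_pow_three
    have h6 : (-Complex.I) ^ 3 = Complex.I := by
      rw [neg_pow, h5]
      norm_num
    rw [h5, h6]
    norm_num

lemma lam_pow_add (b n : ℕ) : lam (b, true) ^ n + lam (b, false) ^ n = 2 * (2 * ((b : ℂ) + 1)) ^ n * (cc n : ℂ) := by
  have h1 : lam (b, true) = (2 * ((b : ℂ) + 1)) * Complex.I := by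
    simp [lam]
  have h2 : lam (b, false) = (2 * ((b : ℂ) + 1)) * (-Complex.I) := by
    simp [lam]
  rw [h1, h2, mul_pow _ Complex.I, mul_pow _ (-Complex.I), ← mul_add, I_pow_add]
  ring

lemma aeval_qq (a b t s : ℕ) (z : ℂ) : aeval z (qq a b t s) = ∑ j ∈ range (t + 1),
    (t.choose j : ℂ) * (a.descFactorial j : ℂ) * ((s : ℂ) * z) ^ (a - j) *
      (lam (b, true) ^ (t - j) + lam (b, false) ^ (t - j)) := by
  unfold qq
  rw [map_sum]
  refine Finset.sum_congr rfl fun j _ => ?_
  rw [aeval_monomial, lam_pow_add, mul_pow (s : ℂ) z]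
  simp only [map_mul, map_pow, map_natCast, map_add, map_one, map_ofNat, eq_intCast]
  generalize (2 : ℂ) * ((b : ℂ) + 1) = y
  ring

theorem Q_eval (M L : ℕ) (v : ℕ → ℕ → ℤ[X]) (t s : ℕ) (z : ℂ) :
    aeval z (Q M L v t s) =
      ∑ i ∈ ix L, (Dl (lam i) t (gg M v z i.1)).eval ((s : ℂ) * z) := by
  unfold Q ix
  rw [Finset.sum_product, map_sum, Finset.sum_comm' (s := range L) (t := fun _ => univ)
    (t' := univ) (s' := fun _ => range L) (by simp)]
  rw [Fintype.sum_bool, ← Finset.sum_add_distrib]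
  have h1 : ∀ b, ∀ e : Bool, (Dl (lam (b, e)) t (gg M v z b)).eval ((s : ℂ) * z) =
      ∑ a ∈ range M, aeval z (v a b) * ∑ j ∈ range (t + 1),
      (t.choose j : ℂ) * (a.descFactorial j : ℂ) * ((s : ℂ) * z) ^ (a - j) * lam (b, e) ^ (t - j) := by
    intro b e
    unfold gg
    rw [Dl_sum, eval_finsetSum]
    refine Finset.sum_congr rfl fun a _ => ?_
    rw [Dl_eval]
  simp only [h1]
  simp only [map_sum, map_mul, aeval_qq]
  rw [Finset.sum_comm]
  refine Finset.sum_congr rfl fun b _ => ?_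
  rw [← Finset.sum_add_distrib]
  refine Finset.sum_congr rfl fun a _ => ?_
  rw [← mul_add, ← Finset.sum_add_distrib]
  congr 1
  refine Finset.sum_congr rfl fun j _ => ?_
  rw [← mul_add]

end Pool.Agent.Helper79.PM
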